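import Pool.Agent.Helper96.GP.NDefs

/-!
# Blocks G2c (profile, reflection), for MP_1b5634_co (definitions and statements by helper96)
-/

open Finset
open scoped Classical

namespace GPG

noncomputable section

theorem h31_n_pos {n t : ℕ} (ht : t < n ^ 2) : 0 < n := by
  rcases Nat.eq_zero_or_pos n with h | h
  · subst h; simp at ht
  · exact h

theorem h31_div_lt {n t : ℕ} (ht : t < n ^ 2) : t / n < n := by
  have hn := h31_n_pos ht
  rw [Nat.div_lt_iff_lt_mul hn]; nlinarith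

/-- the profile -/
theorem rho_bounds (n t : ℕ) (ht : t < n ^ 2) : 17 / 20 ≤ rho n t ∧ rho n t ≤ 1999 / 1000 := by
  have hn := h31_n_pos ht
  have hd := h31_div_lt ht
  unfold rho
  rw [rhoh_eq]
  have hnR : (0 : ℝ) < n := by exact_mod_cast hn
  have hdR : ((t / n : ℕ) : ℝ) + 1 ≤ n := by exact_mod_cast hd
  have hd0 : (0 : ℝ) ≤ ((t / n : ℕ) : ℝ) := Nat.cast_nonneg _
  generalize hy : (((t / n : ℕ) : ℝ) + 1 / 2) / n = y
  have y0 : 0 ≤ y := by rw [← hy]; positivity
  have y1 : y ≤ 1 := by rw [← hy, div_le_one hnR]; linarith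
  constructor
  · have h1 : 0 ≤ (1 - y) ^ 2 * (1 + 2 * y) := by positivity
    nlinarith [h1]
  · have h1 : 0 ≤ y ^ 2 * (1 - y) := mul_nonneg (sq_nonneg _) (by linarith)
    nlinarith [h1, sq_nonneg y]

theorem h31_mir_mod (n t : ℕ) (_ht : t < n ^ 2) : mir n t % n = t % n := by
  unfold mir
  rw [Nat.add_mul_mod_self_right, Nat.mod_mod]

theorem h31_mir_div (n t : ℕ) (ht : t < n ^ 2) : mir n t / n = n - 1 - t / n := by
  have hn := h31_n_pos ht
  unfold mir
  rw [Nat.add_mul_div_right _ _ hn, Nat.div_eq_of_lt (Nat.mod_lt _ hn), zero_add]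

theorem mir_lt (n t : ℕ) (ht : t < n ^ 2) : mir n t < n ^ 2 := by
  have hn := h31_n_pos ht
  have h1 := Nat.mod_lt t hn
  unfold mir
  have h2 : (n - 1 - t / n) * n ≤ (n - 1) * n := Nat.mul_le_mul_right _ (Nat.sub_le _ _)
  have h3 : (n - 1) * n + n = n ^ 2 := by
    obtain ⟨m, rfl⟩ : ∃ m, n = m + 1 := ⟨n - 1, by omega⟩
    simp only [Nat.add_sub_cancel]
    ring
  omega

theorem mir_mir (n t : ℕ) (ht : t < n ^ 2) : mir n (mir n t) = t := by
  have hd := h31_div_lt ht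
  have h1 : mir n (mir n t) = mir n t % n + (n - 1 - mir n t / n) * n := rfl
  rw [h1, h31_mir_mod n t ht, h31_mir_div n t ht]
  have h2 : n - 1 - (n - 1 - t / n) = t / n := by
    clear h1
    generalize t / n = d at hd ⊢
    omega
  rw [h2]
  exact Nat.mod_add_div' t n

theorem rho_mir (n t : ℕ) (ht : t < n ^ 2) : rho n t + rho n (mir n t) = 14287 / 5000 := by
  have hn := h31_n_pos ht
  have hd := h31_div_lt ht
  unfold rho
  rw [h31_mir_div n t ht]
  have hnR : (n : ℝ) ≠ 0 := by exact_mod_cast hn.ne'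
  have h1 : ((n - 1 - t / n : ℕ) : ℝ) = (n : ℝ) - 1 - ((t / n : ℕ) : ℝ) := by
    rw [Nat.cast_sub (by omega), Nat.cast_sub (by omega)]
    simp
  rw [h1]
  have h2 : ((n : ℝ) - 1 - ((t / n : ℕ) : ℝ) + 1 / 2) / n =
      1 - (((t / n : ℕ) : ℝ) + 1 / 2) / n := by
    field_simp
    ring
  rw [h2]
  generalize (((t / n : ℕ) : ℝ) + 1 / 2) / n = y
  unfold rhoh
  ring

theorem h31_px_mir (n t : ℕ) (ht : t < n ^ 2) : px n (mir n t) = px n t := by
  unfold px
  rw [h31_mir_mod n t ht]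

theorem h31_py_mir (n t : ℕ) (ht : t < n ^ 2) : py n (mir n t) = (n : ℤ) - 1 - py n t := by
  have hd := h31_div_lt ht
  unfold py
  rw [h31_mir_div n t ht]
  generalize t / n = d at hd ⊢
  rw [Nat.cast_sub (by omega), Nat.cast_sub (by omega)]
  simp

theorem det3_mir (n a b c : ℕ) (ha : a < n ^ 2) (hb : b < n ^ 2) (hc : c < n ^ 2) :
    det3 n (mir n a) (mir n b) (mir n c) = - det3 n a b c := by
  unfold det3
  rw [h31_px_mir n a ha, h31_px_mir n b hb, h31_px_mir n c hc, h31_py_mir n a ha,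
    h31_py_mir n b hb, h31_py_mir n c hc]
  ring

theorem pd_mir (n a b : ℕ) (ha : a < n ^ 2) (hb : b < n ^ 2) :
    pd n (mir n a) (mir n b) = pd n a b := by
  unfold pd DD gg
  rw [h31_px_mir n a ha, h31_px_mir n b hb, h31_py_mir n a ha,
    h31_py_mir n b hb]
  have h1 : (n : ℤ) - 1 - py n b - ((n : ℤ) - 1 - py n a) = -(py n b - py n a) := by ring
  rw [h1, Int.natAbs_neg, Int.gcd_neg]

end

end GPG
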