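import Pool.Agent.Helper31.GP.G2c

/-!
# Block G2 (sizes of lines and half lines), for MP_1b5634_co (definitions and statements by helper96)
-/

open Finset
open scoped Classical

namespace GPG

noncomputable section

theorem h31_px_nonneg (n t : ℕ) : 0 ≤ px n t := by unfold px; positivity

theorem h31_py_nonneg (n t : ℕ) : 0 ≤ py n t := by unfold py; positivity

theorem h31_px_lt {n t : ℕ} (ht : t < n ^ 2) : px n t < n := by
  unfold px
  exact_mod_cast Nat.mod_lt t (h31_n_pos ht)

theorem h31_py_lt {n t : ℕ} (ht : t < n ^ 2) : py n t < n := by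
  unfold py
  exact_mod_cast h31_div_lt ht

/-- direction of `z` as seen from `w` -/
def dirx (n w z : ℕ) : ℤ := (px n z - px n w) / (gg n w z : ℤ)

/-- direction of `z` as seen from `w` -/
def diry (n w z : ℕ) : ℤ := (py n z - py n w) / (gg n w z : ℤ)

theorem dir_spec {n w z : ℕ} (h : w ≠ z) :
    px n z - px n w = (gg n w z : ℤ) * dirx n w z ∧ py n z - py n w = (gg n w z : ℤ) * diry n w z ∧
    IsCoprime (dirx n w z) (diry n w z) ∧
    pd n w z = max (dirx n w z).natAbs (diry n w z).natAbs := by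
  have hg := gg_pos (n := n) h
  have e1 : px n z - px n w = (gg n w z : ℤ) * dirx n w z := by
    unfold dirx gg
    rw [Int.mul_ediv_cancel' (Int.gcd_dvd_left _ _)]
  have e2 : py n z - py n w = (gg n w z : ℤ) * diry n w z := by
    unfold diry gg
    rw [Int.mul_ediv_cancel' (Int.gcd_dvd_right _ _)]
  refine ⟨e1, e2, ?_, ?_⟩
  · rw [Int.isCoprime_iff_gcd_eq_one]
    unfold dirx diry gg
    exact Int.gcd_ediv_gcd_ediv_gcd hg
  · unfold pd DD
    rw [e1, e2, Int.natAbs_mul, Int.natAbs_mul, Int.natAbs_natCast, Nat.mul_max_mul_left,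
      Nat.mul_div_cancel_left _ hg]

theorem dir_ne_zero {n w z : ℕ} (h : w ≠ z) : dirx n w z ≠ 0 ∨ diry n w z ≠ 0 := by
  by_contra hcon
  push Not at hcon
  obtain ⟨h1, h2, h3, _⟩ := dir_spec (n := n) h
  rw [hcon.1, hcon.2] at h3
  exact not_isCoprime_zero_zero h3

theorem pd_one_le {n w z : ℕ} (h : w ≠ z) : 1 ≤ pd n w z := by
  rw [(dir_spec h).2.2.2]
  rcases dir_ne_zero h with h1 | h1
  · exact le_max_of_le_left (Int.natAbs_pos.2 h1)
  · exact le_max_of_le_right (Int.natAbs_pos.2 h1)

/-- points of a line: integer multiples of the primitive direction -/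
theorem line_param {n a b c : ℕ} (hab : a ≠ b) (hc : det3 n a b c = 0) :
    ∃ k : ℤ, px n c - px n a = k * dirx n a b ∧ py n c - py n a = k * diry n a b := by
  obtain ⟨h1, h2, h3, _⟩ := dir_spec (n := n) hab
  have hg : (gg n a b : ℤ) ≠ 0 := by exact_mod_cast (gg_pos hab).ne'
  unfold det3 at hc
  rw [h1, h2] at hc
  have hc' : dirx n a b * (py n c - py n a) = diry n a b * (px n c - px n a) := by
    apply mul_left_cancel₀ hg
    linear_combination hc
  have d1 : dirx n a b ∣ (px n c - px n a) :=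
    h3.dvd_of_dvd_mul_left ⟨(py n c - py n a), hc'.symm⟩
  obtain ⟨k, hk⟩ := d1
  have d2 : diry n a b ∣ (py n c - py n a) :=
    h3.symm.dvd_of_dvd_mul_left ⟨(px n c - px n a), hc'⟩
  obtain ⟨l, hl⟩ := d2
  rcases dir_ne_zero hab with hx | hy
  · refine ⟨k, by rw [hk]; ring, ?_⟩
    apply mul_left_cancel₀ hx
    rw [hc', hk]; ring
  · refine ⟨l, ?_, by rw [hl]; ring⟩
    apply mul_left_cancel₀ hy
    rw [← hc', hl]; ring

theorem pd_lt {n a b : ℕ} (_hab : a ≠ b) (ha : a < n ^ 2) (hb : b < n ^ 2) : pd n a b < n := by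
  have h1 : DD n a b < n := by
    unfold DD
    have := h31_px_nonneg n a
    have := h31_px_nonneg n b
    have := h31_py_nonneg n a
    have := h31_py_nonneg n b
    have := h31_px_lt ha
    have := h31_px_lt hb
    have := h31_py_lt ha
    have := h31_py_lt hb
    rw [max_lt_iff]
    constructor <;> omega
  exact lt_of_le_of_lt (Nat.div_le_self _ _) h1

/-- spaced integers in an interval -/
theorem card_spaced {ι : Type*} (s : Finset ι) (f : ι → ℤ) (n P : ℕ) (hP : 1 ≤ P) (hPn : P ≤ n)
    (h0 : ∀ c ∈ s, 0 ≤ f c ∧ f c < n)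
    (hs : ∀ c ∈ s, ∀ d ∈ s, c ≠ d → f c < f d → f c + P ≤ f d)
    (hi : ∀ c ∈ s, ∀ d ∈ s, c ≠ d → f c ≠ f d) : ((s.card : ℕ) : ℝ) ≤ 2 * n / P := by
  have hPR : (0 : ℝ) < P := by exact_mod_cast hP
  have hPZ : (0 : ℤ) < P := by exact_mod_cast hP
  have h1 : s.card ≤ (range ((n - 1) / P + 1)).card := by
    apply Finset.card_le_card_of_injOn (fun c => (f c / P).toNat)
    · intro c hc
      have hc' := h0 c hc
      simp only [coe_range, Set.mem_Iio]
      have e1 : 0 ≤ f c / P := Int.ediv_nonneg hc'.1 hPZ.le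
      have e2 : f c / P ≤ ((n : ℤ) - 1) / P := Int.ediv_le_ediv hPZ (by linarith [hc'.2])
      have e3 : (((n - 1) / P : ℕ) : ℤ) = ((n : ℤ) - 1) / P := by
        push_cast [Nat.cast_sub (le_trans hP hPn)]
        rfl
      rw [← e3] at e2
      omega
    · intro c hc d hd hcd
      by_contra hne
      have hc' := h0 c hc
      have hd' := h0 d hd
      have e1 : 0 ≤ f c / P := Int.ediv_nonneg hc'.1 hPZ.le
      have e2 : 0 ≤ f d / P := Int.ediv_nonneg hd'.1 hPZ.le
      have hcd' : f c / P = f d / P := by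
        simp only at hcd
        omega
      rcases lt_or_gt_of_ne (hi c hc d hd hne) with h | h
      · have := hs c hc d hd hne h
        have h2 : f c / P + 1 ≤ f d / P := by
          have := Int.ediv_le_ediv hPZ this
          rwa [Int.add_ediv_of_dvd_right (dvd_refl _), Int.ediv_self hPZ.ne'] at this
        omega
      · have := hs d hd c hc (Ne.symm hne) h
        have h2 : f d / P + 1 ≤ f c / P := by
          have := Int.ediv_le_ediv hPZ this
          rwa [Int.add_ediv_of_dvd_right (dvd_refl _), Int.ediv_self hPZ.ne'] at this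
        omega
  rw [card_range] at h1
  have h2 : ((s.card : ℕ) : ℝ) ≤ ((n - 1) / P + 1 : ℕ) := by exact_mod_cast h1
  refine h2.trans ?_
  have h3 : (((n - 1) / P : ℕ) : ℝ) ≤ ((n - 1 : ℕ) : ℝ) / P := Nat.cast_div_le
  have h4 : ((n - 1 : ℕ) : ℝ) ≤ n := by exact_mod_cast Nat.sub_le _ _
  have h5 : ((n - 1 : ℕ) : ℝ) / P ≤ n / P := div_le_div_of_nonneg_right h4 hPR.le
  have h6 : (1 : ℝ) ≤ n / P := by
    rw [le_div_iff₀ hPR, one_mul]
    exact_mod_cast hPn
  push_cast
  have h7 : (2 : ℝ) * n / P = n / P + n / P := by ring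
  rw [h7]
  linarith

/-- the dominant coordinate -/
def dom (n a b c : ℕ) : ℤ :=
  if (px n b - px n a).natAbs ≤ (py n b - py n a).natAbs then py n c else px n c

theorem dom_bounds {n a b c : ℕ} (hc : c < n ^ 2) : 0 ≤ dom n a b c ∧ dom n a b c < n := by
  unfold dom
  split_ifs
  · exact ⟨h31_py_nonneg n c, h31_py_lt hc⟩
  · exact ⟨h31_px_nonneg n c, h31_px_lt hc⟩

/-- displacement of the dominant coordinate along the line -/
theorem dom_spec {n a b c d : ℕ} (hab : a ≠ b) (hc : det3 n a b c = 0) (hd : det3 n a b d = 0) :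
    ∃ m : ℤ, (dom n a b d - dom n a b c = m * pd n a b) ∧ (m = 0 → c = d) := by
  obtain ⟨k, hk1, hk2⟩ := line_param hab hc
  obtain ⟨l, hl1, hl2⟩ := line_param hab hd
  obtain ⟨h1, h2, h3, h4⟩ := dir_spec (n := n) hab
  have hg := gg_pos (n := n) hab
  have hcmp : (px n b - px n a).natAbs ≤ (py n b - py n a).natAbs ↔
      (dirx n a b).natAbs ≤ (diry n a b).natAbs := by
    rw [h1, h2, Int.natAbs_mul, Int.natAbs_mul, Int.natAbs_natCast, Nat.mul_le_mul_left_iff hg]
  have hinj : l - k = 0 → c = d := by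
    intro h
    have hlk : l = k := by linarith
    rw [hlk] at hl1 hl2
    exact px_py_inj (by linarith) (by linarith)
  unfold dom
  by_cases hle : (dirx n a b).natAbs ≤ (diry n a b).natAbs
  · rw [if_pos (hcmp.2 hle), if_pos (hcmp.2 hle)]
    rw [max_eq_right hle] at h4
    have hd1 : py n d - py n c = (l - k) * diry n a b := by linear_combination hl2 - hk2
    rcases Int.natAbs_eq (diry n a b) with h | h
    · refine ⟨l - k, ?_, hinj⟩
      rw [hd1, h4, ← h]
    · refine ⟨-(l - k), ?_, fun h0 => hinj (by linarith)⟩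
      rw [hd1, h4]
      linear_combination (l - k) * h
  · rw [if_neg (fun h => hle (hcmp.1 h)), if_neg (fun h => hle (hcmp.1 h))]
    rw [max_eq_left (by omega)] at h4
    have hd1 : px n d - px n c = (l - k) * dirx n a b := by linear_combination hl1 - hk1
    rcases Int.natAbs_eq (dirx n a b) with h | h
    · refine ⟨l - k, ?_, hinj⟩
      rw [hd1, h4, ← h]
    · refine ⟨-(l - k), ?_, fun h0 => hinj (by linarith)⟩
      rw [hd1, h4]
      linear_combination (l - k) * h

theorem dom_inj {n a b c d : ℕ} (hab : a ≠ b) (hc : det3 n a b c = 0) (hd : det3 n a b d = 0)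
    (h : dom n a b c = dom n a b d) : c = d := by
  obtain ⟨m, hm, hm0⟩ := dom_spec hab hc hd
  have hP := pd_one_le (n := n) hab
  apply hm0
  have : m * (pd n a b : ℤ) = 0 := by rw [← hm, h]; ring
  rcases mul_eq_zero.1 this with h1 | h1
  · exact h1
  · exact absurd h1 (by exact_mod_cast (by omega : pd n a b ≠ 0))

theorem dom_spaced {n a b c d : ℕ} (hab : a ≠ b) (hc : det3 n a b c = 0) (hd : det3 n a b d = 0)
    (h : dom n a b c < dom n a b d) : dom n a b c + pd n a b ≤ dom n a b d := by
  obtain ⟨m, hm, hm0⟩ := dom_spec hab hc hd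
  have hP := pd_one_le (n := n) hab
  have hP' : (0 : ℤ) < pd n a b := by exact_mod_cast hP
  have h1 : 0 < m := by
    by_contra hcon
    push Not at hcon
    nlinarith
  nlinarith

theorem card_gline (n a b : ℕ) (hab : a ≠ b) (ha : a < n ^ 2) (hb : b < n ^ 2) :
    ((gline n a b).card : ℝ) ≤ 2 * n / pd n a b := by
  apply card_spaced (gline n a b) (dom n a b) n (pd n a b) (pd_one_le hab) (pd_lt hab ha hb).le
  · intro c hc
    exact dom_bounds (mem_gline.1 hc).1
  · intro c hc d hd _ h
    exact dom_spaced hab (mem_gline.1 hc).2 (mem_gline.1 hd).2 h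
  · intro c hc d hd hne h
    exact hne (dom_inj hab (mem_gline.1 hc).2 (mem_gline.1 hd).2 h)

theorem hf_iff_dom (n a b c : ℕ) : hf n a b c ↔ 2 * dom n a b c < n := by
  unfold hf dom
  split_ifs <;> rfl

theorem card_ghalf (n a b : ℕ) (hab : a ≠ b) (ha : a < n ^ 2) (hb : b < n ^ 2) :
    ((ghalf n a b).card : ℝ) ≤ n / 2 + 2 := by
  have key : ∀ c ∈ ghalf n a b, c < n ^ 2 ∧ det3 n a b c = 0 ∧
      (2 * dom n a b c < n ↔ 2 * dom n a b a < n) := by
    intro c hc
    unfold ghalf at hc
    rw [mem_filter, mem_gline, hf_iff_dom, hf_iff_dom] at hc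
    exact ⟨hc.1.1, hc.1.2, hc.2⟩
  have hcard : (ghalf n a b).card ≤ (range ((n + 1) / 2)).card := by
    by_cases hA : 2 * dom n a b a < n
    · apply Finset.card_le_card_of_injOn (fun c => (dom n a b c).toNat)
      · intro c hc
        obtain ⟨h1, h2, h3⟩ := key c hc
        have h4 := h3.2 hA
        have h5 := (dom_bounds (a := a) (b := b) h1).1
        simp only [coe_range, Set.mem_Iio]
        omega
      · intro c hc d hd hcd
        obtain ⟨h1, h2, h3⟩ := key c hc
        obtain ⟨h1', h2', h3'⟩ := key d hd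
        have h5 := (dom_bounds (a := a) (b := b) h1).1
        have h5' := (dom_bounds (a := a) (b := b) h1').1
        simp only at hcd
        exact dom_inj hab h2 h2' (by omega)
    · apply Finset.card_le_card_of_injOn (fun c => ((n : ℤ) - 1 - dom n a b c).toNat)
      · intro c hc
        obtain ⟨h1, h2, h3⟩ := key c hc
        have h4 : ¬ (2 * dom n a b c < n) := fun h => hA (h3.1 h)
        have h5 := (dom_bounds (a := a) (b := b) h1).2
        simp only [coe_range, Set.mem_Iio]
        omega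
      · intro c hc d hd hcd
        obtain ⟨h1, h2, h3⟩ := key c hc
        obtain ⟨h1', h2', h3'⟩ := key d hd
        have h5 := (dom_bounds (a := a) (b := b) h1).2
        have h5' := (dom_bounds (a := a) (b := b) h1').2
        simp only at hcd
        exact dom_inj hab h2 h2' (by omega)
  rw [card_range] at hcard
  have h1 : ((ghalf n a b).card : ℝ) ≤ (((n + 1) / 2 : ℕ) : ℝ) := by exact_mod_cast hcard
  have h2 : (((n + 1) / 2 : ℕ) : ℝ) ≤ ((n + 1 : ℕ) : ℝ) / 2 := Nat.cast_div_le
  push_cast at h2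
  linarith

end

end GPG
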