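import Pool.Agent.Helper31.GP.G2

/-!
# Block G2b (counts by directions), for MP_1b5634_co (definitions and statements by helper96)
-/

open Finset
open scoped Classical

namespace GPG

noncomputable section

/-- integer vectors of sup norm `k` -/
def ring8 (k : ℕ) : Finset (ℤ × ℤ) :=
  ((Ico (-(k : ℤ)) k).image (fun t => ((k : ℤ), t))) ∪
  ((Ico (-(k : ℤ)) k).image (fun t => (-(k : ℤ), -t))) ∪
  ((Ico (-(k : ℤ)) k).image (fun t => (-t, (k : ℤ)))) ∪
  ((Ico (-(k : ℤ)) k).image (fun t => (t, -(k : ℤ))))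

theorem card_ring8 (k : ℕ) : (ring8 k).card ≤ 8 * k := by
  unfold ring8
  have h : (Ico (-(k : ℤ)) k).card = 2 * k := by
    rw [Int.card_Ico]; omega
  have h1 := card_image_le (s := Ico (-(k : ℤ)) k) (f := fun t => ((k : ℤ), t))
  have h2 := card_image_le (s := Ico (-(k : ℤ)) k) (f := fun t => (-(k : ℤ), -t))
  have h3 := card_image_le (s := Ico (-(k : ℤ)) k) (f := fun t => (-t, (k : ℤ)))
  have h4 := card_image_le (s := Ico (-(k : ℤ)) k) (f := fun t => (t, -(k : ℤ)))
  rw [h] at h1 h2 h3 h4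
  refine (card_union_le _ _).trans ?_
  have h5 := card_union_le (((Ico (-(k : ℤ)) k).image (fun t => ((k : ℤ), t))) ∪
    ((Ico (-(k : ℤ)) k).image (fun t => (-(k : ℤ), -t))))
    ((Ico (-(k : ℤ)) k).image (fun t => (-t, (k : ℤ))))
  have h6 := card_union_le ((Ico (-(k : ℤ)) k).image (fun t => ((k : ℤ), t)))
    ((Ico (-(k : ℤ)) k).image (fun t => (-(k : ℤ), -t)))
  omega

theorem mem_ring8 {k : ℕ} (hk : 1 ≤ k) {x y : ℤ} (h : max x.natAbs y.natAbs = k) :
    (x, y) ∈ ring8 k := by
  unfold ring8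
  simp only [mem_union, mem_image, mem_Ico, Prod.mk.injEq]
  have h1 : x.natAbs ≤ k := h ▸ le_max_left _ _
  have h2 : y.natAbs ≤ k := h ▸ le_max_right _ _
  have h3 : x.natAbs = k ∨ y.natAbs = k := by
    rcases max_choice x.natAbs y.natAbs with h4 | h4
    · left; rw [← h, h4]
    · right; rw [← h, h4]
  by_cases c1 : x = k ∧ y ≠ k
  · left; left; left
    exact ⟨y, ⟨by omega, by omega⟩, c1.1.symm, rfl⟩
  · by_cases c2 : x = -k ∧ y ≠ -k
    · left; left; right
      exact ⟨-y, ⟨by omega, by omega⟩, c2.1.symm, by ring⟩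
    · by_cases c3 : y = k
      · left; right
        exact ⟨-x, ⟨by omega, by omega⟩, by ring, c3.symm⟩
      · right
        exact ⟨x, ⟨by omega, by omega⟩, rfl, by omega⟩

/-- direction as a vector -/
def dirv (n w z : ℕ) : ℤ × ℤ := (dirx n w z, diry n w z)

theorem dirv_mem {n w z k : ℕ} (hk : 1 ≤ k) (h : w ≠ z) (hp : pd n w z = k) :
    dirv n w z ∈ ring8 k := by
  apply mem_ring8 hk
  rw [← (dir_spec h).2.2.2]
  exact hp

theorem det3_dirv {n w y z : ℕ} (hy : w ≠ y) (hz : w ≠ z) (h : dirv n w y = dirv n w z) :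
    det3 n w y z = 0 := by
  unfold dirv at h
  rw [Prod.mk.injEq] at h
  obtain ⟨h1, h2, _⟩ := dir_spec (n := n) hy
  obtain ⟨h3, h4, _⟩ := dir_spec (n := n) hz
  unfold det3
  rw [h1, h2, h3, h4, h.1, h.2]
  ring

theorem eq_of_dirv_gg {n w y z : ℕ} (hy : w ≠ y) (hz : w ≠ z) (h : dirv n w y = dirv n w z)
    (hg : gg n w y = gg n w z) : y = z := by
  unfold dirv at h
  rw [Prod.mk.injEq] at h
  obtain ⟨h1, h2, _⟩ := dir_spec (n := n) hy
  obtain ⟨h3, h4, _⟩ := dir_spec (n := n) hz
  rw [hg, h.1] at h1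
  rw [hg, h.2] at h2
  exact px_py_inj (by linarith) (by linarith)

theorem gg_mul_pd {n w z : ℕ} (h : w ≠ z) : gg n w z * pd n w z = DD n w z := by
  obtain ⟨h1, h2, _, h4⟩ := dir_spec (n := n) h
  unfold DD
  rw [h1, h2, Int.natAbs_mul, Int.natAbs_mul, Int.natAbs_natCast, Nat.mul_max_mul_left, h4]

theorem DD_lt {n a b : ℕ} (ha : a < n ^ 2) (hb : b < n ^ 2) : DD n a b < n := by
  unfold DD
  have := h31_px_nonneg n a
  have := h31_px_nonneg n b
  have := h31_py_nonneg n a
  have := h31_py_nonneg n b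
  have := h31_px_lt ha
  have := h31_px_lt hb
  have := h31_py_lt ha
  have := h31_py_lt hb
  rw [max_lt_iff]
  constructor <;> omega

/-- points in direction of sup norm `k` as seen from `w` in a set without three in line -/
theorem card_dir_noThree (n w k : ℕ) (hk : 1 ≤ k) (hw : w < n ^ 2) (C : Finset ℕ)
    (hC : C ⊆ range (n ^ 2)) (hN : NoThree n C) :
    (C.filter (fun z => z ≠ w ∧ pd n w z = k)).card ≤ 16 * k := by
  have h1 : (C.filter (fun z => z ≠ w ∧ pd n w z = k)).card ≤ 2 * (ring8 k).card := by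
    apply card_le_mul_card_image_of_maps_to (f := fun z => dirv n w z)
    · intro z hz
      rw [mem_filter] at hz
      exact dirv_mem hk (Ne.symm hz.2.1) hz.2.2
    · intro d _
      by_contra hcon
      push Not at hcon
      rw [Finset.two_lt_card] at hcon
      obtain ⟨a, ha, b, hb, c, hc, hab, hac, hbc⟩ := hcon
      rw [mem_filter, mem_filter] at ha hb hc
      have e1 := det3_dirv (Ne.symm ha.1.2.1) (Ne.symm hb.1.2.1) (ha.2.trans hb.2.symm)
      have e2 := det3_dirv (Ne.symm ha.1.2.1) (Ne.symm hc.1.2.1) (ha.2.trans hc.2.symm)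
      have e3 := (line_eq (Ne.symm ha.1.2.1) hab (det3_self2 n w a) e1).1 c
      exact hN a ha.1.1 b hb.1.1 c hc.1.1 hab hbc hac (e3.2 e2)
  have h2 := card_ring8 k
  omega

/-- points in direction of sup norm `k` as seen from `w` -/
theorem card_dir (n w k : ℕ) (hk : 1 ≤ k) (hw : w < n ^ 2) :
    (((range (n ^ 2)).filter (fun z => z ≠ w ∧ pd n w z = k)).card : ℝ) ≤ 16 * n := by
  have h1 : ((range (n ^ 2)).filter (fun z => z ≠ w ∧ pd n w z = k)).card ≤
      (ring8 k ×ˢ Icc 1 (n / k)).card := by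
    apply Finset.card_le_card_of_injOn (fun z => (dirv n w z, gg n w z))
    · intro z hz
      simp only [coe_filter, mem_range, Set.mem_ofPred_eq] at hz
      simp only [coe_product, Set.mem_prod, mem_coe]
      refine ⟨dirv_mem hk (Ne.symm hz.2.1) hz.2.2, ?_⟩
      rw [mem_Icc]
      refine ⟨gg_pos (Ne.symm hz.2.1), ?_⟩
      rw [Nat.le_div_iff_mul_le hk]
      have h2 := gg_mul_pd (n := n) (Ne.symm hz.2.1)
      rw [hz.2.2] at h2
      rw [h2]
      exact (DD_lt hw hz.1).le
    · intro y hy z hz hyz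
      simp only [coe_filter, mem_range, Set.mem_ofPred_eq] at hy hz
      rw [Prod.mk.injEq] at hyz
      exact eq_of_dirv_gg (Ne.symm hy.2.1) (Ne.symm hz.2.1) hyz.1 hyz.2
  rw [card_product, Nat.card_Icc, Nat.add_sub_cancel] at h1
  have h2 := card_ring8 k
  have h3 : k * (n / k) ≤ n := Nat.mul_div_le n k
  have h4 : (ring8 k).card * (n / k) ≤ 16 * n := by
    calc (ring8 k).card * (n / k) ≤ 8 * k * (n / k) := Nat.mul_le_mul_right _ h2
      _ = 8 * (k * (n / k)) := by ring
      _ ≤ 8 * n := Nat.mul_le_mul_left _ h3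
      _ ≤ 16 * n := by omega
  exact_mod_cast h1.trans h4

theorem sum_inv_pd (n w : ℕ) (hn : 2 ≤ n) (hw : w < n ^ 2) :
    ∑ z ∈ (range (n ^ 2)).filter (fun z => z ≠ w), (1 : ℝ) / pd n w z ≤
      16 * n * (1 + Real.log n) := by
  have h1 : ∑ z ∈ (range (n ^ 2)).filter (fun z => z ≠ w), (1 : ℝ) / pd n w z =
      ∑ k ∈ Icc 1 n, ∑ z ∈ ((range (n ^ 2)).filter (fun z => z ≠ w)).filter
        (fun z => pd n w z = k), (1 : ℝ) / pd n w z := by
    rw [Finset.sum_fiberwise_of_maps_to]
    intro z hz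
    rw [mem_filter, mem_range] at hz
    rw [mem_Icc]
    exact ⟨pd_one_le (Ne.symm hz.2), (pd_lt (Ne.symm hz.2) hw hz.1).le⟩
  rw [h1]
  have h2 : ∀ k ∈ Icc 1 n, ∑ z ∈ ((range (n ^ 2)).filter (fun z => z ≠ w)).filter
        (fun z => pd n w z = k), (1 : ℝ) / pd n w z ≤ 16 * n * (1 / k) := by
    intro k hk
    rw [mem_Icc] at hk
    have h3 : ∑ z ∈ ((range (n ^ 2)).filter (fun z => z ≠ w)).filter
        (fun z => pd n w z = k), (1 : ℝ) / pd n w z =
        ((range (n ^ 2)).filter (fun z => z ≠ w ∧ pd n w z = k)).card * (1 / (k : ℝ)) := by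
      rw [filter_filter, Finset.sum_congr rfl (g := fun _ => 1 / (k : ℝ))]
      · rw [sum_const, nsmul_eq_mul]
      · intro z hz
        rw [mem_filter] at hz
        rw [hz.2.2]
    rw [h3]
    exact mul_le_mul_of_nonneg_right (card_dir n w k hk.1 hw) (by positivity)
  refine (sum_le_sum h2).trans ?_
  rw [← mul_sum]
  apply mul_le_mul_of_nonneg_left _ (by positivity)
  have h4 := harmonic_le_one_add_log n
  rw [harmonic_eq_sum_Icc] at h4
  push_cast at h4
  simpa [one_div] using h4

theorem card_noThree (n : ℕ) (C : Finset ℕ) (hC : C ⊆ range (n ^ 2)) (hN : NoThree n C) :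
    C.card ≤ 2 * n := by
  have h1 : C.card ≤ 2 * (range n).card := by
    apply card_le_mul_card_image_of_maps_to (f := fun z => z / n)
    · intro z hz
      exact mem_range.2 (h31_div_lt (mem_range.1 (hC hz)))
    · intro d _
      by_contra hcon
      push Not at hcon
      rw [Finset.two_lt_card] at hcon
      obtain ⟨a, ha, b, hb, c, hc, hab, hac, hbc⟩ := hcon
      rw [mem_filter] at ha hb hc
      apply hN a ha.1 b hb.1 c hc.1 hab hbc hac
      unfold det3 py
      rw [ha.2, hb.2, hc.2]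
      ring
  rw [card_range] at h1
  exact h1

theorem sum_inv_pd_noThree (n w : ℕ) (hn : 1 ≤ n) (hw : w < n ^ 2) (C : Finset ℕ)
    (hC : C ⊆ range (n ^ 2)) (hN : NoThree n C) :
    ∑ z ∈ C.filter (fun z => z ≠ w), (1 : ℝ) / pd n w z ≤ 40 * Real.sqrt n := by
  set K := Nat.sqrt n with hK
  have hs1 : 1 ≤ Real.sqrt n := by
    rw [Real.one_le_sqrt]; exact_mod_cast hn
  have hs0 : 0 < Real.sqrt n := by linarith
  have hKs : (K : ℝ) ≤ Real.sqrt n := Real.nat_sqrt_le_real_sqrt
  have hsK : Real.sqrt n ≤ K + 1 := Real.real_sqrt_le_nat_sqrt_succ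
  rw [← sum_filter_add_sum_filter_not (C.filter (fun z => z ≠ w)) (fun z => pd n w z ≤ K)]
  have h1 : ∑ z ∈ (C.filter (fun z => z ≠ w)).filter (fun z => pd n w z ≤ K),
      (1 : ℝ) / pd n w z ≤ 16 * K := by
    have h2 : ∑ z ∈ (C.filter (fun z => z ≠ w)).filter (fun z => pd n w z ≤ K),
        (1 : ℝ) / pd n w z = ∑ k ∈ Icc 1 K, ∑ z ∈ ((C.filter (fun z => z ≠ w)).filter
          (fun z => pd n w z ≤ K)).filter (fun z => pd n w z = k), (1 : ℝ) / pd n w z := by
      rw [Finset.sum_fiberwise_of_maps_to]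
      intro z hz
      rw [mem_filter, mem_filter] at hz
      rw [mem_Icc]
      exact ⟨pd_one_le (Ne.symm hz.1.2), hz.2⟩
    rw [h2]
    have h3 : ∀ k ∈ Icc 1 K, ∑ z ∈ ((C.filter (fun z => z ≠ w)).filter
          (fun z => pd n w z ≤ K)).filter (fun z => pd n w z = k), (1 : ℝ) / pd n w z ≤ 16 := by
      intro k hk
      rw [mem_Icc] at hk
      have hkR : (0 : ℝ) < k := by exact_mod_cast hk.1
      have h4 : ∑ z ∈ ((C.filter (fun z => z ≠ w)).filter
          (fun z => pd n w z ≤ K)).filter (fun z => pd n w z = k), (1 : ℝ) / pd n w z ≤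
          (C.filter (fun z => z ≠ w ∧ pd n w z = k)).card * (1 / (k : ℝ)) := by
        rw [Finset.sum_congr rfl (g := fun _ => 1 / (k : ℝ))]
        · rw [sum_const, nsmul_eq_mul]
          apply mul_le_mul_of_nonneg_right _ (by positivity)
          have h5 : (((C.filter (fun z => z ≠ w)).filter
              (fun z => pd n w z ≤ K)).filter (fun z => pd n w z = k)) ⊆
              (C.filter (fun z => z ≠ w ∧ pd n w z = k)) := by
            intro z hz
            rw [mem_filter, mem_filter, mem_filter] at hz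
            rw [mem_filter]
            exact ⟨hz.1.1.1, hz.1.1.2, hz.2⟩
          exact_mod_cast card_le_card h5
        · intro z hz
          rw [mem_filter] at hz
          rw [hz.2]
      refine h4.trans ?_
      have h6 : ((C.filter (fun z => z ≠ w ∧ pd n w z = k)).card : ℝ) ≤ 16 * k := by
        exact_mod_cast card_dir_noThree n w k hk.1 hw C hC hN
      calc ((C.filter (fun z => z ≠ w ∧ pd n w z = k)).card : ℝ) * (1 / (k : ℝ)) ≤
          16 * k * (1 / (k : ℝ)) := mul_le_mul_of_nonneg_right h6 (by positivity)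
        _ = 16 := by field_simp
    refine (sum_le_sum h3).trans ?_
    rw [sum_const, Nat.card_Icc, nsmul_eq_mul, Nat.add_sub_cancel]
    linarith
  have h7 : ∑ z ∈ (C.filter (fun z => z ≠ w)).filter (fun z => ¬ pd n w z ≤ K),
      (1 : ℝ) / pd n w z ≤ 2 * Real.sqrt n := by
    have h8 : ∀ z ∈ (C.filter (fun z => z ≠ w)).filter (fun z => ¬ pd n w z ≤ K),
        (1 : ℝ) / pd n w z ≤ 1 / Real.sqrt n := by
      intro z hz
      rw [mem_filter] at hz
      apply one_div_le_one_div_of_le hs0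
      refine hsK.trans ?_
      have : K + 1 ≤ pd n w z := by omega
      exact_mod_cast this
    refine (sum_le_sum h8).trans ?_
    rw [sum_const, nsmul_eq_mul]
    have h9 : ((((C.filter (fun z => z ≠ w)).filter (fun z => ¬ pd n w z ≤ K)).card : ℕ) : ℝ) ≤
        2 * n := by
      have h10 := (card_le_card (filter_subset (fun z => ¬ pd n w z ≤ K)
        (C.filter (fun z => z ≠ w)))).trans (card_le_card (filter_subset (fun z => z ≠ w) C))
      exact_mod_cast h10.trans (card_noThree n C hC hN)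
    calc ((((C.filter (fun z => z ≠ w)).filter (fun z => ¬ pd n w z ≤ K)).card : ℕ) : ℝ) *
        (1 / Real.sqrt n) ≤ 2 * n * (1 / Real.sqrt n) :=
          mul_le_mul_of_nonneg_right h9 (by positivity)
      _ = 2 * (Real.sqrt n * Real.sqrt n) * (1 / Real.sqrt n) := by
          rw [Real.mul_self_sqrt (Nat.cast_nonneg n)]
      _ = 2 * Real.sqrt n := by field_simp
  linarith

/-- number of lines of `pre` through a point -/
private theorem card_pre (n M : ℕ) (V : Finset ℕ) (hV : V ⊆ range (n ^ 2)) (v : ℕ) :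
    ((gls n V M).filter (fun i => gpre n M i ∧ v ∈ i)).card ≤ (2 * M + 1) ^ 2 := by
  have key : ∀ i ∈ (gls n V M).filter (fun i => gpre n M i ∧ v ∈ i),
      ∃ u, u ∈ i ∧ u ≠ v ∧ pd n v u ≤ M := by
    intro i hi
    rw [mem_filter] at hi
    obtain ⟨hi, ⟨a, ha, b, hb, hab, hp⟩, hv⟩ := hi
    obtain ⟨_, _, hs⟩ := gls_spec hi hab ha hb
    have hs' : i = V ∩ ghalf n a b := by
      rcases hs with hs | hs
      · omega
      · exact hs.2.2
    have hmem : ∀ c ∈ i, det3 n a b c = 0 := by
      intro c hc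
      rw [hs', mem_inter] at hc
      have := hc.2
      unfold ghalf at this
      rw [mem_filter, mem_gline] at this
      exact this.1.2
    by_cases hav : a = v
    · refine ⟨b, hb, by rw [← hav]; exact Ne.symm hab, ?_⟩
      rw [← hav]; exact hp
    · refine ⟨a, ha, hav, ?_⟩
      rw [(line_eq hab (Ne.symm hav) (hmem v hv) (hmem a ha)).2.1]
      exact hp
  choose! u hu using key
  have h1 : ((gls n V M).filter (fun i => gpre n M i ∧ v ∈ i)).card ≤
      ((Icc (-(M : ℤ)) M) ×ˢ (Icc (-(M : ℤ)) M)).card := by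
    apply Finset.card_le_card_of_injOn (fun i => dirv n v (u i))
    · intro i hi
      obtain ⟨h1, h2, h3⟩ := hu i hi
      simp only [coe_product, Set.mem_prod, mem_coe, mem_Icc]
      rw [(dir_spec (Ne.symm h2)).2.2.2] at h3
      have h4 := (max_le_iff.1 h3).1
      have h5 := (max_le_iff.1 h3).2
      unfold dirv
      simp only
      omega
    · intro i hi j hj hij
      obtain ⟨h1, h2, h3⟩ := hu i hi
      obtain ⟨h1', h2', h3'⟩ := hu j hj
      have hi' := mem_filter.1 hi
      have hj' := mem_filter.1 hj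
      have e1 := det3_dirv (Ne.symm h2) (Ne.symm h2') hij
      obtain ⟨_, _, s1⟩ := gls_spec hi'.1 (Ne.symm h2) hi'.2.2 h1
      obtain ⟨_, hujV, s2⟩ := gls_spec hj'.1 (Ne.symm h2') hj'.2.2 h1'
      have s1' : i = V ∩ ghalf n v (u i) := by
        rcases s1 with s1 | s1
        · omega
        · exact s1.2.2
      have s2' : j = V ∩ ghalf n v (u j) ∧ (hf n v (u j) (u j) ↔ hf n v (u j) v) := by
        rcases s2 with s2 | s2
        · omega
        · exact ⟨s2.2.2, s2.2.1⟩
      have hcol := line_eq (Ne.symm h2) (Ne.symm h2') (det3_self1 n v (u i)) e1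
      have m1 : u j ∈ ghalf n v (u i) := by
        unfold ghalf
        rw [mem_filter, mem_gline]
        refine ⟨⟨mem_range.1 (hV hujV), e1⟩, ?_⟩
        rw [← hcol.2.2, ← hcol.2.2]
        exact s2'.2
      have m2 : v ∈ ghalf n v (u i) := by
        unfold ghalf
        rw [mem_filter, mem_gline]
        have hvV : v ∈ V := by
          have := hi'.2.2
          rw [s1', mem_inter] at this
          exact this.1
        exact ⟨⟨mem_range.1 (hV hvV), det3_self1 n v (u i)⟩, Iff.rfl⟩
      rw [s1', s2'.1, ghalf_eq (Ne.symm h2) (Ne.symm h2') m2 m1]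
  refine h1.trans ?_
  rw [card_product, Int.card_Icc]
  have : ((M : ℤ) + 1 - -(M : ℤ)).toNat = 2 * M + 1 := by omega
  rw [this]
  exact le_of_eq (by ring)

private theorem card_gls (n M : ℕ) (V : Finset ℕ) (hV : V ⊆ range (n ^ 2)) :
    (gls n V M).card ≤ 2 * n ^ 4 := by
  unfold gls
  have hc : V.card ≤ n ^ 2 := by
    have := card_le_card hV
    rwa [card_range] at this
  have hc2 : (V ×ˢ V).card ≤ n ^ 4 := by
    rw [card_product]
    calc V.card * V.card ≤ n ^ 2 * n ^ 2 := Nat.mul_le_mul hc hc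
      _ = n ^ 4 := by ring
  refine (card_union_le _ _).trans ?_
  have h1 := (card_image_le (s := (V ×ˢ V).filter (fun q => q.1 ≠ q.2 ∧ M < pd n q.1 q.2))
    (f := fun q => V ∩ gline n q.1 q.2)).trans (card_le_card (filter_subset _ _))
  have h2 := (card_image_le (s := (V ×ˢ V).filter (fun q => q.1 ≠ q.2 ∧ pd n q.1 q.2 ≤ M ∧
    (hf n q.1 q.2 q.2 ↔ hf n q.1 q.2 q.1)))
    (f := fun q => V ∩ ghalf n q.1 q.2)).trans (card_le_card (filter_subset _ _))
  omega

end

end GPG
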